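import Pool.Agent.helper50.NPT.Spec3

/-!
# Project NPT (MP_8f32d0_ag), row APE: the Apery basis
-/

set_option autoImplicit false

namespace NPT

open scoped Classical
open AN

noncomputable section

theorem APE_ord (hKA : KA_stmt) {K : Type} [Field K] {g : ℕ} {γ : Fin g → ℕ} {a : ℕ → LS K} (hK : IsK γ a)
    (hGE : ∀ r : ℕ, ¬ Gp γ r → a r ∈ GE K (-(r : ℤ))) (α : LS K) (hα : α ∈ AA γ a) (M : ℕ)
    (hM : α ∈ GE K (-(M : ℤ))) (h0 : cf α (-(M : ℤ)) ≠ 0) : ¬ Gp γ M := by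
  intro hG
  have h1 := (hKA K g γ a hK).2.2 α hα M (fun r hr _ => hM _ (by omega))
  apply h0
  have h2 := congrArg (fun z : LS K => cf z (-(M : ℤ))) h1
  have h3 : cf α (-(M : ℤ)) = cf (∑ r ∈ Finset.range (M + 1), if Gp γ r then 0 else cf α (-(r : ℤ)) • a r) (-(M : ℤ)) := h2
  rw [h3, cf_sum]
  refine Finset.sum_eq_zero fun r hr => ?_
  rw [Finset.mem_range] at hr
  by_cases hr1 : Gp γ r
  · rw [if_pos hr1, cf_zero]
  · rw [if_neg hr1, cf_smul]
    have hne : r ≠ M := by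
      intro h
      exact hr1 (h ▸ hG)
    have h4 : cf (a r) (-(M : ℤ)) = 0 := hGE r hr1 _ (by omega)
    rw [h4, mul_zero]

theorem APE_xpow {K : Type} [Field K] (n q : ℕ) : (mono (-(n : ℤ)) (1 : K)) ^ q = mono (-((n * q : ℕ) : ℤ)) (1 : K) := by
  induction q with
  | zero =>
    rw [pow_zero]
    have h : (mono (-((n * 0 : ℕ) : ℤ)) (1 : K)) = LS.C 1 := by
      rw [C_eq_mono]; simp
    rw [h, map_one]
  | succ q ih =>
    rw [pow_succ, ih, mono_mul_mono, mul_one]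
    have h : -((n * q : ℕ) : ℤ) + -(n : ℤ) = -((n * (q + 1) : ℕ) : ℤ) := by push_cast; ring
    rw [h]

theorem APE_large {g : ℕ} (γ : Fin g → ℕ) : ∃ N : ℕ, ∀ r, N ≤ r → ¬ Gp γ r := by
  refine ⟨(∑ i, γ i) + 1, ?_⟩
  rintro r hr ⟨i, hi⟩
  have h := Finset.single_le_sum (f := γ) (fun _ _ => Nat.zero_le _) (Finset.mem_univ i)
  omega

theorem APE_exp (hKA : KA_stmt) (hKB : KB_stmt) {K : Type} [Field K] {g : ℕ} {γ : Fin g → ℕ} {a : ℕ → LS K} (hK : IsK γ a)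
    (hGE : ∀ r : ℕ, ¬ Gp γ r → a r ∈ GE K (-(r : ℤ))) {n : ℕ} (hn : 0 < n)
    (hx : mono (-(n : ℤ)) (1 : K) ∈ AA γ a) (μ : Fin n → ℕ) (hμ0 : μ ⟨0, hn⟩ = 0) (hμG : ∀ i, ¬ Gp γ (μ i))
    (hμ : ∀ r : ℕ, ¬ Gp γ r → ∃ (i : Fin n) (q : ℕ), r = μ i + n * q) :
    ∀ (M : ℕ) (α : LS K), α ∈ AA γ a → α ∈ GE K (-(M : ℤ)) →
      ∃ c : Fin n → Polynomial K, α = ∑ k, (c k).eval₂ LS.C (mono (-(n : ℤ)) (1 : K)) * a (μ k) := by
  have hB := hKB K g γ a hK
  intro M
  induction M with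
  | zero =>
    intro α hα hM
    obtain ⟨b, hb⟩ := hB.2.2.1 α hα (by simpa using hM)
    refine ⟨fun k => if k = ⟨0, hn⟩ then Polynomial.C b else 0, ?_⟩
    rw [Finset.sum_eq_single (⟨0, hn⟩ : Fin n)]
    · beta_reduce
      rw [if_pos rfl, Polynomial.eval₂_C, hμ0, hK.one, mul_one, hb]
    · intro k _ hk
      beta_reduce
      rw [if_neg hk, Polynomial.eval₂_zero, zero_mul]
    · intro h
      exact absurd (Finset.mem_univ _) h
  | succ M ih =>
    intro α hα hM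
    by_cases h0 : cf α (-((M + 1 : ℕ) : ℤ)) = 0
    · refine ih α hα ?_
      intro m hm
      by_cases h1 : m = -((M + 1 : ℕ) : ℤ)
      · rw [h1]; exact h0
      · refine hM m ?_
        push_cast at h1 ⊢
        omega
    · have hG := APE_ord hKA hK hGE α hα (M + 1) hM h0
      obtain ⟨k, q, hkq⟩ := hμ _ hG
      have hxq : (mono (-(n : ℤ)) (1 : K)) ^ q ∈ AA γ a := by
        clear hkq
        induction q with
        | zero =>
          rw [pow_zero]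
          have := hB.2.1 (1 : K)
          rwa [map_one] at this
        | succ q ih2 =>
          rw [pow_succ]
          exact hB.2.2.2.1 _ ih2 _ hx
      obtain ⟨e, he⟩ : ∃ e : K, e = cf α (-((M + 1 : ℕ) : ℤ)) := ⟨_, rfl⟩
      have hT : LS.C e * ((mono (-(n : ℤ)) (1 : K)) ^ q * a (μ k)) ∈ AA γ a :=
        hB.2.2.2.1 _ (hB.2.1 e) _ (hB.2.2.2.1 _ hxq _ (hB.1 _ (hμG k)))
      have hcf : ∀ m : ℤ, cf (LS.C e * ((mono (-(n : ℤ)) (1 : K)) ^ q * a (μ k))) m =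
          e * cf (a (μ k)) (m + ((n * q : ℕ) : ℤ)) := by
        intro m
        rw [cf_C_mul, APE_xpow, cf_mono_mul, one_mul]
        have h5 : m - -((n * q : ℕ) : ℤ) = m + ((n * q : ℕ) : ℤ) := by ring
        rw [h5]
      have hkq' : ((M + 1 : ℕ) : ℤ) = (μ k : ℤ) + ((n * q : ℕ) : ℤ) := by
        rw [hkq]; push_cast; ring
      obtain ⟨c, hc⟩ := ih (α - LS.C e * ((mono (-(n : ℤ)) (1 : K)) ^ q * a (μ k))) ((AA γ a).sub_mem hα hT) (by
        intro m hm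
        rw [cf_sub, hcf]
        by_cases h1 : m = -((M + 1 : ℕ) : ℤ)
        · rw [h1]
          have h2 : -((M + 1 : ℕ) : ℤ) + ((n * q : ℕ) : ℤ) = -(μ k : ℤ) := by rw [hkq']; ring
          rw [h2, hK.coef _ _ (hμG k) (hμG k), if_pos rfl, mul_one, he, sub_self]
        · have h3 : m < -((M + 1 : ℕ) : ℤ) := by
            push_cast at h1 ⊢
            omega
          rw [hM m h3, hGE _ (hμG k) _ (by omega), mul_zero, sub_zero])
      refine ⟨fun k' => c k' + if k' = k then Polynomial.C e * Polynomial.X ^ q else 0, ?_⟩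
      have h6 : α = (∑ k, (c k).eval₂ LS.C (mono (-(n : ℤ)) (1 : K)) * a (μ k)) +
          LS.C e * ((mono (-(n : ℤ)) (1 : K)) ^ q * a (μ k)) := by
        rw [← hc]; ring
      have h7 : ∑ k', (c k' + if k' = k then Polynomial.C e * Polynomial.X ^ q else 0).eval₂ LS.C (mono (-(n : ℤ)) (1 : K)) * a (μ k') =
          (∑ k, (c k).eval₂ LS.C (mono (-(n : ℤ)) (1 : K)) * a (μ k)) +
          ∑ k', (if k' = k then LS.C e * ((mono (-(n : ℤ)) (1 : K)) ^ q * a (μ k)) else 0) := by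
        rw [← Finset.sum_add_distrib]
        refine Finset.sum_congr rfl fun k' _ => ?_
        rw [Polynomial.eval₂_add, add_mul]
        by_cases hk' : k' = k
        · subst hk'
          rw [if_pos rfl, if_pos rfl, Polynomial.eval₂_mul, Polynomial.eval₂_C, Polynomial.eval₂_X_pow, mul_assoc]
        · rw [if_neg hk', if_neg hk', Polynomial.eval₂_zero, zero_mul]
      rw [h7, Finset.sum_ite_eq' Finset.univ k, if_pos (Finset.mem_univ _)]
      exact h6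

theorem APE (hKA : KA_stmt) (hKB : KB_stmt) : APE_stmt := by
  intro K _ g γ a hK hGE n hn hx
  have hB := hKB K g γ a hK
  have h0G : ¬ Gp γ 0 := by
    rintro ⟨i, hi⟩
    have := hK.pos i
    omega
  have hadd : ∀ r : ℕ, ¬ Gp γ r → ¬ Gp γ (r + n) := by
    intro r hr
    have hm : mono (-(n : ℤ)) (1 : K) ∈ GE K (-(n : ℤ)) := mono_mem_GE _ _
    have hmul := GE_mul (hGE r hr) hm
    have hlead := cf_mul_lead (hGE r hr) hm
    have hi : -(r : ℤ) + -(n : ℤ) = -((r + n : ℕ) : ℤ) := by push_cast; ring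
    rw [hi] at hmul hlead
    refine APE_ord hKA hK hGE (a r * mono (-(n : ℤ)) (1 : K)) (hB.2.2.2.1 _ (hB.1 r hr) _ hx) (r + n) hmul ?_
    rw [hlead, hK.coef r r hr hr, if_pos rfl, cf_mono, if_pos rfl, one_mul]
    exact one_ne_zero
  obtain ⟨N, hN⟩ := APE_large γ
  have hex : ∀ i : Fin n, ∃ r : ℕ, ¬ Gp γ r ∧ r % n = i := by
    intro i
    refine ⟨i + n * N, hN _ ?_, ?_⟩
    · have : N ≤ n * N := Nat.le_mul_of_pos_left N hn
      omega
    · rw [Nat.add_mul_mod_self_left]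
      exact Nat.mod_eq_of_lt i.2
  obtain ⟨μ, hμ⟩ : ∃ μ : Fin n → ℕ, ∀ i, μ i = Nat.find (hex i) := ⟨_, fun _ => rfl⟩
  have hμG : ∀ i, ¬ Gp γ (μ i) := fun i => by rw [hμ i]; exact (Nat.find_spec (hex i)).1
  have hμm : ∀ i, μ i % n = i := fun i => by rw [hμ i]; exact (Nat.find_spec (hex i)).2
  have hμle : ∀ (i : Fin n) (r : ℕ), ¬ Gp γ r → r % n = i → μ i ≤ r := fun i r h1 h2 => by
    rw [hμ i]; exact Nat.find_min' (hex i) ⟨h1, h2⟩
  have hμ0 : μ ⟨0, hn⟩ = 0 := by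
    have := hμle ⟨0, hn⟩ 0 h0G (by simp)
    omega
  have hfwd : ∀ r : ℕ, ¬ Gp γ r → ∃ (i : Fin n) (q : ℕ), r = μ i + n * q := by
    intro r hr
    obtain ⟨i, hi⟩ : ∃ i : Fin n, i = ⟨r % n, Nat.mod_lt _ hn⟩ := ⟨_, rfl⟩
    have hi' : r % n = i := by rw [hi]
    have h1 := hμle i r hr hi'
    have h2 := hμm i
    have h3 : n ∣ r - μ i := by
      rw [← Nat.modEq_iff_dvd' h1]
      unfold Nat.ModEq
      rw [h2, hi']
    obtain ⟨q, hq⟩ := h3
    refine ⟨i, q, ?_⟩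
    omega
  have hbwd : ∀ (i : Fin n) (q : ℕ), ¬ Gp γ (μ i + n * q) := by
    intro i q
    induction q with
    | zero => simpa using hμG i
    | succ q ih =>
      have := hadd _ ih
      have h2 : μ i + n * (q + 1) = μ i + n * q + n := by ring
      rw [h2]; exact this
  have hc : ∀ i j : Fin n, ∃ c : Fin n → Polynomial K,
      a (μ i) * a (μ j) = ∑ k, (c k).eval₂ LS.C (mono (-(n : ℤ)) (1 : K)) * a (μ k) := by
    intro i j
    obtain ⟨M, hM⟩ := exists_lb_nat (a (μ i) * a (μ j))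
    exact APE_exp hKA hKB hK hGE hn hx μ hμ0 hμG hfwd M _ (hK.mul _ _ (hμG i) (hμG j)) hM
  choose c hc using hc
  refine ⟨μ, c, hμm, hμG, ?_, hc⟩
  intro r
  constructor
  · exact hfwd r
  · rintro ⟨i, q, rfl⟩
    exact hbwd i q

end

end NPT
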