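import Pool.Agent.helper50.NPT.Spec1

/-!
# npt:WTA (MP_8f32d0_ag): Witt vectors modulo `V²`
-/

set_option autoImplicit false

namespace NPT

open scoped Classical
open AN

theorem WTA_P2 (p : ℕ) [hp : Fact p.Prime] {B : Type} [CommRing B] (x y : B) :
    (p : B) * P2 p x y = (x + y) ^ p - x ^ p - y ^ p := by
  have hp1 := hp.out.one_lt
  have h1 : (x + y) ^ p = (∑ m ∈ Finset.Ico 1 p, x ^ m * y ^ (p - m) * (p.choose m : B)) + y ^ p + x ^ p := by
    rw [add_pow, Finset.sum_range_succ, Finset.range_eq_Ico, Finset.sum_eq_sum_Ico_succ_bot (by omega)]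
    simp
    ring
  have h2 : (p : B) * P2 p x y = ∑ m ∈ Finset.Ico 1 p, x ^ m * y ^ (p - m) * (p.choose m : B) := by
    unfold P2
    rw [Finset.mul_sum]
    refine Finset.sum_congr rfl fun i hi => ?_
    rw [Finset.mem_Ico] at hi
    have hd : p ∣ p.choose i := hp.out.dvd_choose_self (by omega) hi.2
    have e : ((p.choose i : ℕ) : B) = (p : B) * ((p.choose i / p : ℕ) : B) := by
      rw [← Nat.cast_mul, Nat.mul_div_cancel' hd]
    rw [e]
    ring
  rw [h2, h1]
  ring

theorem WTA_map (p : ℕ) {A B : Type} [CommRing A] [CommRing B] (f : A →+* B) (x y : A) :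
    f (P2 p x y) = P2 p (f x) (f y) := by
  unfold P2
  rw [map_sum]
  refine Finset.sum_congr rfl fun i _ => ?_
  rw [map_mul, map_mul, map_pow, map_pow, map_natCast]

theorem WTA_gh (p : ℕ) [hp : Fact p.Prime] {B : Type} [CommRing B] (X : WittVector p B) :
    WittVector.ghostComponent 1 X = X.coeff 0 ^ p + p * X.coeff 1 := by
  rw [WittVector.ghostComponent_apply, wittPolynomial_one]
  simp
  ring

theorem WTA_gh0 (p : ℕ) [hp : Fact p.Prime] {B : Type} [CommRing B] (X : WittVector p B) :
    WittVector.ghostComponent 0 X = X.coeff 0 := by
  rw [WittVector.ghostComponent_apply, wittPolynomial_zero]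
  simp

theorem WTA_h {A B : Type} [CommRing A] [CommRing B] (f : A →+* B) (a b c d : A) :
    f (a - (b + c + d)) = f a - (f b + f c + f d) := by
  rw [map_sub, map_add, map_add]

theorem WTA_tf (p : ℕ) [hp : Fact p.Prime] {A : Type} [CommRing A] [IsDomain A] [CharZero A] (x y : A) :
    (WittVector.teichmuller p (x + y) - (WittVector.teichmuller p x + WittVector.teichmuller p y +
      WittVector.verschiebung (WittVector.teichmuller p (P2 p x y)))).coeff 0 = 0 ∧
    (WittVector.teichmuller p (x + y) - (WittVector.teichmuller p x + WittVector.teichmuller p y +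
      WittVector.verschiebung (WittVector.teichmuller p (P2 p x y)))).coeff 1 = 0 := by
  set D := WittVector.teichmuller p (x + y) - (WittVector.teichmuller p x + WittVector.teichmuller p y +
      WittVector.verschiebung (WittVector.teichmuller p (P2 p x y))) with hD
  have h0 : D.coeff 0 = 0 := by
    rw [← WTA_gh0, hD, WTA_h, WittVector.ghostComponent_teichmuller,
      WittVector.ghostComponent_teichmuller, WittVector.ghostComponent_teichmuller,
      WittVector.ghostComponent_zero_verschiebung]
    simp
  have h1 : WittVector.ghostComponent 1 D = 0 := by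
    rw [hD, WTA_h, WittVector.ghostComponent_teichmuller,
      WittVector.ghostComponent_teichmuller, WittVector.ghostComponent_teichmuller]
    have h2 := WittVector.ghostComponent_verschiebung (WittVector.teichmuller p (P2 p x y)) 0
    rw [zero_add] at h2
    rw [h2, WittVector.ghostComponent_teichmuller, pow_zero, pow_one, pow_one, WTA_P2]
    ring
  rw [WTA_gh, h0, zero_pow hp.out.ne_zero, zero_add] at h1
  refine ⟨h0, ?_⟩
  rcases mul_eq_zero.1 h1 with h | h
  · exact absurd h (Nat.cast_ne_zero.2 hp.out.ne_zero)
  · exact h

theorem WTA : WTA_stmt := by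
  intro p hp B _
  refine ⟨fun x y => ?_, fun X => ?_, fun X hX => ?_⟩
  · obtain ⟨f, hfx, hfy⟩ : ∃ f : MvPolynomial (Fin 2) ℤ →+* B, f (MvPolynomial.X 0) = x ∧ f (MvPolynomial.X 1) = y :=
      ⟨MvPolynomial.eval₂Hom (Int.castRingHom B) ![x, y], by simp, by simp⟩
    obtain ⟨h0, h1⟩ := WTA_tf p (MvPolynomial.X 0 : MvPolynomial (Fin 2) ℤ) (MvPolynomial.X 1)
    have hm : WittVector.map f (WittVector.teichmuller p (MvPolynomial.X 0 + MvPolynomial.X 1) -
        (WittVector.teichmuller p (MvPolynomial.X 0) + WittVector.teichmuller p (MvPolynomial.X 1) +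
          WittVector.verschiebung (WittVector.teichmuller p (P2 p (MvPolynomial.X 0) (MvPolynomial.X 1))))) =
        WittVector.teichmuller p (x + y) - (WittVector.teichmuller p x + WittVector.teichmuller p y +
          WittVector.verschiebung (WittVector.teichmuller p (P2 p x y))) := by
      rw [WTA_h, WittVector.map_verschiebung, WittVector.map_teichmuller, WittVector.map_teichmuller,
        WittVector.map_teichmuller, WittVector.map_teichmuller, WTA_map, map_add, hfx, hfy]
    set D := WittVector.teichmuller p (x + y) - (WittVector.teichmuller p x + WittVector.teichmuller p y +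
          WittVector.verschiebung (WittVector.teichmuller p (P2 p x y))) with hD
    have e : D = WittVector.verschiebung^[2] (D.shift 2) := by
      apply WittVector.eq_iterate_verschiebung
      intro i hi
      rw [← hm, WittVector.map_coeff]
      interval_cases i
      · rw [h0, map_zero]
      · rw [h1, map_zero]
    refine ⟨D.shift 2, ?_⟩
    have e2 : D = WittVector.verschiebung (WittVector.verschiebung (D.shift 2)) := e
    rw [← e2, hD]
    ring
  · refine ⟨X.shift 1, ?_, ?_⟩
    · rw [WittVector.shift_coeff]
    · have h := WittVector.init_add_tail X 1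
      have h1 : WittVector.init 1 X = WittVector.teichmuller p (X.coeff 0) := by
        ext i
        rcases Nat.eq_zero_or_pos i with hi | hi
        · subst hi
          simp [WittVector.init, WittVector.select]
        · simp [WittVector.init, WittVector.select, WittVector.teichmuller_coeff_pos, hi]
          omega
      have h2 : WittVector.tail 1 X = WittVector.verschiebung (X.shift 1) := by
        ext i
        rcases i with _ | i
        · simp [WittVector.tail, WittVector.select]
        · simp [WittVector.tail, WittVector.select, WittVector.verschiebung_coeff_succ, WittVector.shift_coeff]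
          rw [add_comm]
      rw [← h1, ← h2, h]
  · refine ⟨X.shift 1, ?_⟩
    have e : X = WittVector.verschiebung^[1] (X.shift 1) := by
      apply WittVector.eq_iterate_verschiebung
      intro i hi
      have : i = 0 := by omega
      rw [this, hX]
    exact e

end NPT
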